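import Pool.Agent.Lib.MP_b71113_an.FH.Main

namespace Pool.Agent.Results.MP_b71113_an.HullFormulaHoles

open Pool.Agent.Lib.MP_b71113_an

/-- Two-sided bound for `U(Ω₀ \ K, c)` by holomorphic hulls of the outer boundary alone, with
equality for convex `Ω₀`; `K` is empty or a far compact hole. -/
theorem result (n : ℕ) (hn : 1 < n) (Ω₀ K : Set (Fin n → ℝ)) (hΩ : IsOpen Ω₀) (hK : IsCompact K)
    (hKΩ : K ⊆ Ω₀) (c : Fin n → ℝ) (hc : ∀ j, 0 ≤ c j)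
    (h : K = ∅ ∨ (IsPreconnected (Ω₀ \ K) ∧ FarHole Ω₀ K c)) :
    (Ω₀ \ K) \ closure (interior (hullSet Ω₀ c)) ⊆ vanishingSet (Ω₀ \ K) c ∧
    vanishingSet (Ω₀ \ K) c ⊆ (Ω₀ \ K) \ closure (interior (hullSet (convexHull ℝ Ω₀) c)) ∧
    (Convex ℝ Ω₀ → vanishingSet (Ω₀ \ K) c = (Ω₀ \ K) \ closure (interior (hullSet Ω₀ c)) ∧
      vanishingSet (Ω₀ \ K) c = vanishingSet Ω₀ c \ K) ∧
    (Ω₀ = Set.univ → vanishingSet (Ω₀ \ K) c = Ω₀ \ K) := by
  have h1 := lower_hole hn hΩ hK hKΩ hc h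
  have h2 : vanishingSet (Ω₀ \ K) c ⊆
      (Ω₀ \ K) \ closure (interior (hullSet (convexHull ℝ Ω₀) c)) := fun x hx =>
    ⟨vanishingSet_subset _ c hx,
      ((general_bounds (by omega) hΩ hc).2 (vanishingSet_mono Set.sdiff_subset c hx)).2⟩
  refine ⟨h1, h2, fun hv => ?_, fun hu => (vanishingSet_subset _ c).antisymm ?_⟩
  · have h3 := (hv.convexHull_eq ▸ h2).antisymm h1
    exact ⟨h3, by rw [h3, convex_formula (by omega) hΩ hv hc, sdiff_right_comm]⟩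
  · subst hu
    simpa [hull_univ] using h1

end Pool.Agent.Results.MP_b71113_an.HullFormulaHoles
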