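import Pool.Agent.Lib.MP_b71113_an.LI.Final

namespace Pool.Agent.Results.MP_b71113_an.LineInside

open Pool.Agent.Lib.MP_b71113_an

/-- If a domain `Ω` contains a line parallel to the `k`-th axis for every `k ∈ S`, the numbers
`c_k`, `k ∈ S`, may be replaced by `0` in the hull lower bound for `U(Ω,c)`. -/
theorem result (n : ℕ) (_hn : 1 < n) (Ω : Set (Fin n → ℝ)) (hΩ : IsOpen Ω)
    (hconn : IsPreconnected Ω) (c : Fin n → ℝ) (hc : ∀ j, 0 ≤ c j) (S : Finset (Fin n))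
    (hS : ∀ k ∈ S, ∃ x₀ : Fin n → ℝ, ∀ t : ℝ, Function.update x₀ k t ∈ Ω)
    (Ω₁ : Set (Fin n → ℝ)) (hΩ₁ : IsOpen Ω₁) (hsub : Ω₁ ⊆ Ω) :
    Ω₁ \ closure (interior (hullSet Ω₁ fun j => if j ∈ S then 0 else c j)) ⊆ vanishingSet Ω c :=
  LI.lower_line hΩ hconn hc hS hΩ₁ hsub

/-- The case in which `S` misses at most one index: `U(Ω,c) = Ω`. -/
theorem whole_domain (n : ℕ) (hn : 1 < n) (Ω : Set (Fin n → ℝ)) (hΩ : IsOpen Ω)
    (hconn : IsPreconnected Ω) (c : Fin n → ℝ) (hc : ∀ j, 0 ≤ c j) (S : Finset (Fin n))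
    (hS : ∀ k ∈ S, ∃ x₀ : Fin n → ℝ, ∀ t : ℝ, Function.update x₀ k t ∈ Ω)
    (h : n ≤ S.card + 1) : vanishingSet Ω c = Ω := by
  obtain ⟨k₀, hk⟩ : ∃ k₀ : Fin n, ∀ k, k ≠ k₀ → k ∈ S := by
    have h1 : Sᶜ.card ≤ 1 := by rw [Finset.card_compl, Fintype.card_fin]; omega
    have : Nonempty (Fin n) := ⟨⟨0, by omega⟩⟩
    obtain ⟨k₀, h2⟩ := Finset.card_le_one_iff_subset_singleton.1 h1
    exact ⟨k₀, fun k hk => by_contra fun h3 =>
      hk (Finset.mem_singleton.1 (h2 (Finset.mem_compl.2 h3)))⟩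
  exact LI.all_line hΩ hconn hc fun k h => hS k (hk k h)

end Pool.Agent.Results.MP_b71113_an.LineInside
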