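import Pool.Agent.Lib.MP_b71113_an.OT.All

namespace Pool.Agent.Results.MP_b71113_an.PlanarTransport

open MeasureTheory Set Pool.Agent.Lib.MP_b71113_an Pool.Agent.NapOT

/-- `U(Ω,c)` for every convex planar domain, described by optimal transport. -/
theorem result (Ω : Set (Fin 2 → ℝ)) (hΩ : IsOpen Ω) (hconv : Convex ℝ Ω)
    (c : Fin 2 → ℝ) (hc : ∀ j, 0 < c j) :
    (volume Ω ≤ ENNReal.ofReal (4 * c 0 * c 1) → vanishingSet Ω c = ∅) ∧
    (ENNReal.ofReal (4 * c 0 * c 1) < volume Ω → (∃ u, Potential Ω c u) ∧ ∀ u, Potential Ω c u →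
      volume (Ω \ interior (argmin Ω u)) = volume (rect c ∩ barrier Ω) ∧
      vanishingSet Ω c = interior (argmin Ω u)) :=
  planar_all Ω hΩ hconv c hc

end Pool.Agent.Results.MP_b71113_an.PlanarTransport
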