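import Pool.Agent.Lib.MP_b71113_an.Prod

namespace Pool.Agent.Results.MP_b71113_an.ProductFormula

open Pool.Agent.Lib.MP_b71113_an

/-- Closed formula for `U(Ω,c)` when `Ω` is a product of open intervals, bounded or not. -/
theorem result (n : ℕ) (hn : 1 < n) (a b : Fin n → EReal) (c : Fin n → ℝ) (hc : ∀ j, 0 < c j) :
    vanishingSet {x : Fin n → ℝ | ∀ j, a j < (x j : EReal) ∧ (x j : EReal) < b j} c =
      {x : Fin n → ℝ | (∀ j, a j < (x j : EReal) ∧ (x j : EReal) < b j) ∧
        ∑ j, sideMeasure (a j) (b j) (c j) (x j) < 1} :=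
  prod_formula (by omega) a b hc

end Pool.Agent.Results.MP_b71113_an.ProductFormula
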